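import Mathlib
import Pool.Agent.D0H90.SM.Stm2
import Pool.Agent.D0H81.SM.Base

/-! Project SM, module STAB: spreading out from the generic point of a divisor. -/

set_option autoImplicit false

namespace Pool.Agent.D0H65.SM

open Pool.Agent.D0H90.SM Pool.Agent.D0H81.SM
open MvPolynomial Matrix

universe u v

variable {n d : ℕ}

theorem glue_map {R : Type u} {S : Type v} [CommRing R] [CommRing S] (φ : R →+* S)
    (c : Cf n d → R) (z : Rest n d → R) (a : Cf n d) :
    φ (glue c z a) = glue (fun a => φ (c a)) (fun ρ => φ (z ρ)) a := by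
  unfold glue
  split_ifs <;> rfl

theorem glue_rest {R : Type u} (c : Cf n d → R) : glue c (rest c) = c := by
  funext a
  unfold glue rest
  split_ifs <;> rfl

/-- the generic point of the slice -/
noncomputable def ys {k : Type u} [Field k] (c : Cf n d → k) : Cf n d → MvPolynomial (Rest n d) k :=
  glue (fun a => C (c a)) X

theorem eval_ys {k : Type u} [Field k] (c : Cf n d → k) (z : Rest n d → k) (a : Cf n d) :
    eval z (ys c a) = glue c z a := by
  unfold ys
  rw [glue_map (eval z)]
  simp only [eval_C, eval_X]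

section partA

attribute [local instance] MvPolynomial.algebraMvPolynomial

theorem loc_mem {σ : Type v} {R : Type u} [CommRing R] (M : Submonoid R) (S : Type u) [CommRing S]
    [Algebra R S] [IsLocalization M S] (I : Ideal (MvPolynomial σ R)) (x : MvPolynomial σ R)
    (h : MvPolynomial.map (algebraMap R S) x ∈ Ideal.map (MvPolynomial.map (algebraMap R S)) I) :
    ∃ g ∈ M, C g * x ∈ I := by
  have h1 : algebraMap (MvPolynomial σ R) (MvPolynomial σ S) x ∈
      I.map (algebraMap (MvPolynomial σ R) (MvPolynomial σ S)) := h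
  rw [IsLocalization.algebraMap_mem_map_algebraMap_iff (M.map (C (σ := σ)))] at h1
  obtain ⟨m, ⟨g, hg, rfl⟩, h2⟩ := h1
  exact ⟨g, hg, h2⟩

end partA

theorem partA (hNDG : S_NDG.{u}) (k : Type u) [Field k] [IsAlgClosed k] (c : Cf n d → k)
    (hc : Nondeg c) : ∃ g : MvPolynomial (Rest n d) k, eval (rest c) g ≠ 0 ∧
      ∀ z, eval z g ≠ 0 → Nondeg (glue c z) := by
  classical
  let P : Ideal (MvPolynomial (Rest n d) k) := RingHom.ker (eval (rest c))
  have hP : P.IsPrime := RingHom.ker_isPrime _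
  let O := Localization.AtPrime P
  have hu : ∀ s : P.primeCompl, IsUnit (eval (rest c) (s : MvPolynomial (Rest n d) k)) := by
    intro s
    rw [isUnit_iff_ne_zero]
    intro h0
    exact s.2 (RingHom.mem_ker.2 h0)
  let π : O →+* k := IsLocalization.lift hu
  have hπ : ∀ r : MvPolynomial (Rest n d) k, π (algebraMap _ O r) = eval (rest c) r :=
    fun r => IsLocalization.lift_eq _ _
  have hs : Function.Surjective π := fun t => ⟨algebraMap _ O (C t), by rw [hπ, eval_C]⟩
  obtain ⟨M, hM⟩ := hNDG O k π hs n d (fun a => algebraMap _ O (ys c a)) (by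
    have h1 : (fun a => π (algebraMap _ O (ys c a))) = c := by
      funext a
      rw [hπ, eval_ys, glue_rest]
    rw [h1]
    exact hc)
  have h1 : ∀ l : Fin n, ∃ g ∈ P.primeCompl, C g * X l ^ M ∈
      Ideal.span (Set.range (ev (fun b => (C (ys c b) : MvPolynomial (Fin n)
        (MvPolynomial (Rest n d) k))) X)) := by
    intro l
    apply loc_mem P.primeCompl O
    rw [Ideal.map_span, ← Set.range_comp, map_pow, map_X]
    have h2 : (MvPolynomial.map (algebraMap (MvPolynomial (Rest n d) k) O) ∘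
        ev (fun b => (C (ys c b) : MvPolynomial (Fin n) (MvPolynomial (Rest n d) k))) X) =
        ev (fun b => (C (algebraMap _ O (ys c b)) : MvPolynomial (Fin n) O)) X := by
      have h3 := ev_map (S := MvPolynomial (Fin n) O)
        (MvPolynomial.map (σ := Fin n) (algebraMap (MvPolynomial (Rest n d) k) O))
        (fun b => (C (ys c b) : MvPolynomial (Fin n) (MvPolynomial (Rest n d) k))) X
      simp only [map_C, map_X] at h3
      rw [h3]
      rfl
    rw [h2]
    exact hM l
  choose g hg1 hg2 using h1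
  have hgne : ∀ l, eval (rest c) (g l) ≠ 0 := fun l h0 => hg1 l (RingHom.mem_ker.2 h0)
  refine ⟨∏ l, g l, ?_, fun z hz x hx => ?_⟩
  · rw [map_prod]
    exact Finset.prod_ne_zero_iff.2 fun l _ => hgne l
  · rw [map_prod, Finset.prod_ne_zero_iff] at hz
    funext l
    let Φ : MvPolynomial (Fin n) (MvPolynomial (Rest n d) k) →+* k := eval₂Hom (eval z) x
    have h2 : Ideal.span (Set.range (ev (fun b => (C (ys c b) : MvPolynomial (Fin n)
        (MvPolynomial (Rest n d) k))) X)) ≤ RingHom.ker Φ := by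
      rw [Ideal.span_le]
      rintro _ ⟨j, rfl⟩
      rw [SetLike.mem_coe, RingHom.mem_ker]
      have h3 := congrFun (ev_map Φ (fun b => (C (ys c b) : MvPolynomial (Fin n)
        (MvPolynomial (Rest n d) k))) X) j
      rw [← h3]
      have h4 : (fun a => Φ (C (ys c a))) = glue c z := by
        funext a
        rw [← eval_ys]
        exact eval₂Hom_C _ _ _
      have h5 : (fun l => Φ (X l)) = x := by
        funext l
        exact eval₂Hom_X' _ _ _
      rw [h4, h5, hx]
      rfl
    have h6 := h2 (hg2 l)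
    rw [RingHom.mem_ker, map_mul, map_pow] at h6
    have h7 : Φ (C (g l)) = eval z (g l) := eval₂Hom_C _ _ _
    have h8 : Φ (X l) = x l := eval₂Hom_X' _ _ _
    rw [h7, h8] at h6
    rcases mul_eq_zero.1 h6 with h9 | h9
    · exact absurd h9 (hz l (Finset.mem_univ l))
    · exact eq_zero_of_pow_eq_zero h9

/-- `dev` is linear in the direction -/
theorem dev_sum {R : Type u} [CommRing R] (c : Cf n d → R) (x y : Fin n → R) (i : Fin n) :
    dev c x y i = ∑ l, y l * dev c x (bas l) i := by
  have h1 : ∀ (m : Ex n d) (l : Fin n), dmon m x (bas l) =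
      ((m.1 l : ℕ) : R) * ∏ s, x s ^ (if s = l then (m.1 s : ℕ) - 1 else (m.1 s : ℕ)) := by
    intro m l
    unfold dmon
    rw [Finset.sum_eq_single l]
    · simp
    · intro b _ hb
      simp [hb]
    · intro h
      exact absurd (Finset.mem_univ l) h
  unfold dev
  simp only [h1]
  unfold dmon
  simp only [Finset.mul_sum]
  rw [Finset.sum_comm]
  refine Finset.sum_congr rfl fun l _ => Finset.sum_congr rfl fun m _ => ?_
  ring

/-- the matrix of the map of `Transv` -/
def TM {R : Type u} [CommRing R] (c : Cf n d → R) :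
    Matrix (Fin n × Fin n) (Fin n × Fin n) R :=
  Matrix.of fun p q => (if q.2 = p.1 then dev c (bas p.1) (bas q.1) p.2 else 0) -
    (if q.1 = p.2 then ev c (bas p.1) q.2 else 0)

theorem bas_map {R : Type u} {S : Type v} [CommRing R] [CommRing S] (φ : R →+* S) (i : Fin n) :
    (bas i : Fin n → S) = fun l => φ ((bas i : Fin n → R) l) := by
  funext l
  by_cases h : l = i
  · subst h
    simp
  · simp [h]

theorem TM_map {R : Type u} {S : Type v} [CommRing R] [CommRing S] (φ : R →+* S)
    (c : Cf n d → R) : TM (fun a => φ (c a)) = (TM c).map φ := by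
  ext p q
  rw [Matrix.map_apply]
  unfold TM
  rw [Matrix.of_apply, Matrix.of_apply, map_sub]
  congr 1
  · split_ifs
    · rw [bas_map φ p.1, bas_map φ q.1]
      exact congrFun (dev_map φ c (bas p.1) (bas q.1)) p.2
    · rw [map_zero]
  · split_ifs
    · rw [bas_map φ p.1]
      exact congrFun (ev_map φ c (bas p.1)) q.2
    · rw [map_zero]

theorem TM_mulVec {R : Type u} [CommRing R] (c : Cf n d → R) (B : Matrix (Fin n) (Fin n) R)
    (p : Fin n × Fin n) : (TM c *ᵥ fun q => B q.1 q.2) p =
      dev c (bas p.1) (B *ᵥ bas p.1) p.2 - (B *ᵥ ev c (bas p.1)) p.2 := by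
  rw [dev_sum]
  have hB : ∀ l, ∑ x, B l x * (bas p.1 : Fin n → R) x = B l p.1 := by
    intro l
    simp [Pi.single_apply]
  unfold TM
  simp only [Matrix.mulVec, dotProduct, Matrix.of_apply, sub_mul, Finset.sum_sub_distrib,
    Fintype.sum_prod_type, ite_mul, zero_mul]
  congr 1
  · refine Finset.sum_congr rfl fun l _ => ?_
    rw [Finset.sum_ite_eq' Finset.univ p.1, hB]
    simp
    ring
  · rw [Finset.sum_comm]
    refine Finset.sum_congr rfl fun l _ => ?_
    rw [Finset.sum_ite_eq' Finset.univ p.2]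
    simp
    ring

theorem transv_iff {K : Type u} [Field K] (c : Cf n d → K) : Transv c ↔ (TM c).det ≠ 0 := by
  constructor
  · intro h h0
    obtain ⟨v, hv, hv0⟩ := Matrix.exists_mulVec_eq_zero_iff.2 h0
    apply hv
    have h1 : (Matrix.of fun i j => v (i, j)) = (0 : Matrix (Fin n) (Fin n) K) := by
      apply h
      intro i
      funext j
      have h2 := TM_mulVec c (Matrix.of fun i j => v (i, j)) (i, j)
      have h3 : (fun q : Fin n × Fin n => (Matrix.of fun i j => v (i, j)) q.1 q.2) = v := by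
        funext q
        rfl
      rw [h3, hv0] at h2
      exact (sub_eq_zero.1 h2.symm)
    funext q
    exact congrFun (congrFun h1 q.1) q.2
  · intro h B hB
    have h1 : TM c *ᵥ (fun q => B q.1 q.2) = 0 := by
      funext p
      rw [TM_mulVec, hB p.1, sub_self]
      rfl
    have h2 := Matrix.eq_zero_of_mulVec_eq_zero h h1
    ext i j
    exact congrFun h2 (i, j)

/-- `f(AX) - A f(X)` -/
noncomputable def GF {S : Type u} [CommRing S] (A : Matrix (Fin n) (Fin n) S) (c : Cf n d → S)
    (j : Fin n) : MvPolynomial (Fin n) S :=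
  ev (fun b => (C (c b) : MvPolynomial (Fin n) S)) (fun l => ∑ s, C (A l s) * X s) j -
    ∑ t, C (A j t) * ev (fun b => (C (c b) : MvPolynomial (Fin n) S)) X t

theorem GF_map {S : Type u} {T : Type v} [CommRing S] [CommRing T] (φ : S →+* T)
    (A : Matrix (Fin n) (Fin n) S) (c : Cf n d → S) (j : Fin n) :
    GF (A.map φ) (fun a => φ (c a)) j = MvPolynomial.map φ (GF A c j) := by
  unfold GF
  rw [map_sub, map_sum]
  congr 1
  · rw [← congrFun (ev_map (MvPolynomial.map φ) (fun b => (C (c b) : MvPolynomial (Fin n) S))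
      (fun l => ∑ s, C (A l s) * X s)) j]
    simp only [map_C, map_sum, map_mul, map_X, Matrix.map_apply]
  · refine Finset.sum_congr rfl fun t _ => ?_
    rw [map_mul, map_C, ← congrFun (ev_map (MvPolynomial.map φ)
      (fun b => (C (c b) : MvPolynomial (Fin n) S)) X) t]
    simp only [map_C, map_X, Matrix.map_apply]

theorem GF_eval {S : Type u} [CommRing S] (A : Matrix (Fin n) (Fin n) S) (c : Cf n d → S)
    (j : Fin n) (x : Fin n → S) : eval x (GF A c j) = ev c (A *ᵥ x) j - (A *ᵥ ev c x) j := by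
  unfold GF
  rw [map_sub, map_sum]
  congr 1
  · rw [← congrFun (ev_map (eval x) (fun b => (C (c b) : MvPolynomial (Fin n) S))
      (fun l => ∑ s, C (A l s) * X s)) j]
    simp only [eval_C, map_sum, map_mul, eval_X]
    rfl
  · refine Finset.sum_congr rfl fun t _ => ?_
    rw [map_mul, eval_C, ← congrFun (ev_map (eval x)
      (fun b => (C (c b) : MvPolynomial (Fin n) S)) X) t]
    simp only [eval_C, eval_X]

theorem GF_fixes {K : Type u} [Field K] [Infinite K] (A : Matrix (Fin n) (Fin n) K)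
    (c : Cf n d → K) : Fixes A c ↔ ∀ j, GF A c j = 0 := by
  constructor
  · intro h j
    apply MvPolynomial.funext
    intro x
    rw [GF_eval, h x, sub_self, map_zero]
  · intro h x
    funext j
    have h1 := GF_eval A c j x
    rw [h j, map_zero] at h1
    exact sub_eq_zero.1 h1.symm

/-- the variables -/
abbrev Vr (n : ℕ) : Type := (Fin n × Fin n) ⊕ ((Fin n × Fin n) ⊕ Unit)

/-- the linear forms which vanish at the scalar matrices -/
def sel {S : Type u} [CommRing S] (A : Matrix (Fin n) (Fin n) S) (s : (Fin n × Fin n) × Bool) : S :=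
  if s.2 = true then (if s.1.1 = s.1.2 then 0 else A s.1.1 s.1.2)
  else A s.1.1 s.1.1 - A s.1.2 s.1.2

theorem sel_map {S : Type u} {T : Type v} [CommRing S] [CommRing T] (φ : S →+* T)
    (A : Matrix (Fin n) (Fin n) S) (s : (Fin n × Fin n) × Bool) :
    sel (A.map φ) s = φ (sel A s) := by
  unfold sel
  split_ifs
  · rw [map_zero]
  · rfl
  · rw [map_sub]
    rfl

/-- the generic matrix -/
noncomputable def EE (n : ℕ) (D : Type u) [CommRing D] :
    Matrix (Fin n) (Fin n) (MvPolynomial (Vr n) D) :=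
  Matrix.of fun i j => X (Sum.inl (i, j))

/-- the generic inverse matrix -/
noncomputable def EE' (n : ℕ) (D : Type u) [CommRing D] :
    Matrix (Fin n) (Fin n) (MvPolynomial (Vr n) D) :=
  Matrix.of fun i j => X (Sum.inr (Sum.inl (i, j)))

/-- the relations -/
def Rl {D : Type u} [CommRing D] (y : Cf n d → D) (s : (Fin n × Fin n) × Bool) :
    Set (MvPolynomial (Vr n) D) :=
  {x | (∃ i j, x = (EE n D * EE' n D - 1) i j) ∨
    (∃ j m, x = coeff m (GF (EE n D) (fun a => C (y a)) j)) ∨
    x = X (Sum.inr (Sum.inr ())) * sel (EE n D) s - 1}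

theorem Rl_spec {D : Type u} [CommRing D] (y : Cf n d → D) (s : (Fin n × Fin n) × Bool)
    {S : Type v} [CommRing S] (Ψ : MvPolynomial (Vr n) D →+* S) :
    (∀ r ∈ Rl y s, Ψ r = 0) ↔ (EE n D).map Ψ * (EE' n D).map Ψ = 1 ∧
      (∀ j, GF ((EE n D).map Ψ) (fun a => Ψ (C (y a))) j = 0) ∧
      Ψ (X (Sum.inr (Sum.inr ()))) * sel ((EE n D).map Ψ) s = 1 := by
  have h1 : ∀ i j, Ψ ((EE n D * EE' n D - 1) i j) =
      ((EE n D).map Ψ * (EE' n D).map Ψ - 1) i j := by
    intro i j
    rw [← Matrix.map_mul]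
    rw [Matrix.sub_apply, Matrix.sub_apply, map_sub, Matrix.map_apply]
    congr 1
    rw [Matrix.one_apply, Matrix.one_apply]
    split_ifs
    · rw [map_one]
    · rw [map_zero]
  have h2 : ∀ j m, Ψ (coeff m (GF (EE n D) (fun a => C (y a)) j)) =
      coeff m (GF ((EE n D).map Ψ) (fun a => Ψ (C (y a))) j) := by
    intro j m
    rw [GF_map, coeff_map]
  constructor
  · intro h
    refine ⟨?_, ?_, ?_⟩
    · rw [← sub_eq_zero]
      ext i j
      rw [← h1]
      exact h _ (Or.inl ⟨i, j, rfl⟩)
    · intro j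
      ext m
      rw [← h2, coeff_zero]
      exact h _ (Or.inr (Or.inl ⟨j, m, rfl⟩))
    · rw [← sub_eq_zero]
      have h3 := h _ (Or.inr (Or.inr rfl))
      rw [map_sub, map_mul, map_one, ← sel_map] at h3
      exact h3
  · rintro ⟨g1, g2, g3⟩ r (⟨i, j, rfl⟩ | ⟨j, m, rfl⟩ | rfl)
    · rw [h1, g1, sub_self]
      rfl
    · rw [h2, g2, coeff_zero]
    · rw [map_sub, map_mul, map_one, ← sel_map, g3, sub_self]

theorem sel_scalar {S : Type u} [CommRing S] (r : S) (s : (Fin n × Fin n) × Bool) :
    sel (r • (1 : Matrix (Fin n) (Fin n) S)) s = 0 := by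
  unfold sel
  split_ifs with h1 h2
  · rfl
  · simp [Matrix.smul_apply, h2]
  · simp [Matrix.smul_apply]

theorem scalar_of_sel {S : Type u} [CommRing S] (hn : 0 < n) (A : Matrix (Fin n) (Fin n) S)
    (h : ∀ s, sel A s = 0) : ∃ r : S, A = r • (1 : Matrix (Fin n) (Fin n) S) := by
  refine ⟨A ⟨0, hn⟩ ⟨0, hn⟩, ?_⟩
  ext i j
  by_cases hij : i = j
  · subst hij
    have h1 := h ((i, ⟨0, hn⟩), false)
    unfold sel at h1
    simp only [Bool.false_eq_true, if_false, sub_eq_zero] at h1
    rw [h1]
    simp [Matrix.smul_apply]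
  · have h1 := h ((i, j), true)
    unfold sel at h1
    simp only [if_true, if_neg hij] at h1
    rw [h1]
    simp [Matrix.smul_apply, hij]

theorem partC (hGEN : S_GEN.{u}) (k : Type u) [Field k] [IsAlgClosed k] [CharZero k]
    (hn : 3 ≤ n) (hd : 2 ≤ d) (c : Cf n d → k) (hc : Nondeg c) (ht : Transv c)
    (p : MvPolynomial (Rest n d) k) (hp : Irreducible p) (hpc : eval (rest c) p = 0)
    (s : (Fin n × Fin n) × Bool) :
    ∃ r : MvPolynomial (Rest n d) k, ¬ p ∣ r ∧ ∀ z, eval z p = 0 → eval z r ≠ 0 →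
      ∀ A A' : Matrix (Fin n) (Fin n) k, A * A' = 1 → Fixes A (glue c z) → sel A s = 0 := by
  classical
  have hprime : (Ideal.span {p} : Ideal (MvPolynomial (Rest n d) k)).IsPrime :=
    (Ideal.span_singleton_prime hp.ne_zero).2 hp.prime
  let D := MvPolynomial (Rest n d) k ⧸ (Ideal.span {p} : Ideal (MvPolynomial (Rest n d) k))
  let κ := FractionRing D
  let Ω := AlgebraicClosure κ
  let q : MvPolynomial (Rest n d) k →+* D := Ideal.Quotient.mk _
  let φ : MvPolynomial (Rest n d) k →+* κ := (algebraMap D κ).comp q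
  have hinj : Function.Injective (algebraMap D κ) := IsFractionRing.injective D κ
  have hφ : RingHom.ker φ = Ideal.span {p} := by
    ext x
    rw [RingHom.mem_ker]
    change algebraMap D κ (q x) = 0 ↔ _
    rw [map_eq_zero_iff _ hinj]
    exact Ideal.Quotient.eq_zero_iff_mem
  have hfr : ∀ t : κ, ∃ a b, φ b ≠ 0 ∧ t * φ b = φ a := by
    intro t
    obtain ⟨⟨a, b⟩, hab⟩ := IsLocalization.surj (nonZeroDivisors D) t
    obtain ⟨a', rfl⟩ := Ideal.Quotient.mk_surjective a
    obtain ⟨b', hb'⟩ := Ideal.Quotient.mk_surjective (b : D)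
    refine ⟨a', b', ?_, ?_⟩
    · change algebraMap D κ (q b') ≠ 0
      rw [Ne, map_eq_zero_iff _ hinj]
      have h2 : q b' = b := hb'
      rw [h2]
      exact nonZeroDivisors.ne_zero b.2
    · change t * algebraMap D κ (q b') = algebraMap D κ (q a')
      have h2 : q b' = b := hb'
      rw [h2]
      exact hab
  obtain ⟨-, -, hsc⟩ := hGEN k n d hn hd c hc ht p hp hpc κ Ω φ hφ hfr _ rfl
  let yb : Cf n d → D := fun a => q (ys c a)
  let J : Ideal (MvPolynomial (Vr n) κ) :=
    Ideal.map (MvPolynomial.map (algebraMap D κ)) (Ideal.span (Rl yb s))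
  have hJ : J = ⊤ := by
    by_contra hJ
    obtain ⟨m, hm, hJm⟩ := Ideal.exists_le_maximal J hJ
    obtain ⟨x, hx⟩ := eq_vanishingIdeal_singleton_of_isMaximal Ω hm
    let Ψ : MvPolynomial (Vr n) D →+* Ω :=
      (aeval x : MvPolynomial (Vr n) κ →ₐ[κ] Ω).toRingHom.comp
        (MvPolynomial.map (algebraMap D κ))
    have h1 : ∀ r ∈ Rl yb s, Ψ r = 0 := by
      intro r hr
      have h2 : MvPolynomial.map (algebraMap D κ) r ∈ m :=
        hJm (Ideal.mem_map_of_mem _ (Ideal.subset_span hr))
      rw [hx] at h2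
      exact h2 x rfl
    obtain ⟨g1, g2, g3⟩ := (Rl_spec yb s Ψ).1 h1
    have h3 : (fun a => Ψ (C (yb a))) =
        (fun a => algebraMap κ Ω (φ (glue (fun a => C (c a)) X a))) := by
      funext a
      change aeval x (MvPolynomial.map (algebraMap D κ) (C (yb a))) = _
      rw [map_C, aeval_C]
      rfl
    rw [h3] at g2
    have : Infinite Ω := IsAlgClosed.instInfinite
    obtain ⟨r, hr⟩ := hsc _ _ g1 ((GF_fixes _ _).2 g2)
    rw [hr, sel_scalar, mul_zero] at g3
    exact zero_ne_one g3
  have h1 : MvPolynomial.map (algebraMap D κ) 1 ∈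
      Ideal.map (MvPolynomial.map (algebraMap D κ)) (Ideal.span (Rl yb s)) := by
    change _ ∈ J
    rw [hJ]
    exact Submodule.mem_top
  obtain ⟨rb, hrb, h2⟩ := loc_mem (nonZeroDivisors D) κ _ _ h1
  obtain ⟨r, hr⟩ := Ideal.Quotient.mk_surjective rb
  refine ⟨r, fun hdvd => ?_, fun z hz hrz A A' hA hfix => ?_⟩
  · apply nonZeroDivisors.ne_zero hrb
    rw [← hr]
    exact Ideal.Quotient.eq_zero_iff_mem.2 (Ideal.mem_span_singleton.2 hdvd)
  · by_contra hs
    have hle : ∀ a ∈ (Ideal.span {p} : Ideal (MvPolynomial (Rest n d) k)), eval z a = 0 := by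
      intro a ha
      obtain ⟨b, rfl⟩ := Ideal.mem_span_singleton.1 ha
      rw [map_mul, hz, zero_mul]
    let ψ : D →+* k := Ideal.Quotient.lift _ (eval z) hle
    have hψ : ∀ a, ψ (q a) = eval z a := fun a => Ideal.Quotient.lift_mk _ _ _
    let x : Vr n → k := Sum.elim (fun p => A p.1 p.2)
      (Sum.elim (fun p => A' p.1 p.2) (fun _ => (sel A s)⁻¹))
    let Ψ : MvPolynomial (Vr n) D →+* k := eval₂Hom ψ x
    have e1 : (EE n D).map Ψ = A := by
      ext i j
      exact eval₂Hom_X' _ _ _
    have e2 : (EE' n D).map Ψ = A' := by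
      ext i j
      exact eval₂Hom_X' _ _ _
    have e3 : Ψ (X (Sum.inr (Sum.inr ()))) = (sel A s)⁻¹ := eval₂Hom_X' _ _ _
    have e4 : (fun a => Ψ (C (yb a))) = glue c z := by
      funext a
      rw [← eval_ys, ← hψ]
      exact eval₂Hom_C _ _ _
    have : Infinite k := IsAlgClosed.instInfinite
    have h3 : ∀ r ∈ Rl yb s, Ψ r = 0 := by
      rw [Rl_spec, e1, e2, e3, e4]
      exact ⟨hA, (GF_fixes _ _).1 hfix, inv_mul_cancel₀ hs⟩
    have h4 : Ideal.span (Rl yb s) ≤ RingHom.ker Ψ := Ideal.span_le.2 fun r hr => h3 r hr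
    have h5 := h4 h2
    rw [RingHom.mem_ker, mul_one] at h5
    have h6 : Ψ (C rb) = ψ rb := eval₂Hom_C _ _ _
    rw [h6, ← hr] at h5
    exact hrz ((hψ r).symm.trans h5)

/-- Module STAB. -/
theorem t_STAB : S_NDG.{u} → S_GEN.{u} → S_STAB.{u} := by
  intro hNDG hGEN k _ _ _ n d hn hd c hc ht p g hp hpc hg
  classical
  obtain ⟨g2, hg2, hg2z⟩ := partA hNDG k c hc
  have hg1 : eval (rest c) (TM (ys c)).det ≠ 0 := by
    have h1 : eval (rest c) (TM (ys c)).det = (TM c).det := by
      rw [RingHom.map_det]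
      congr 1
      have h2 := TM_map (eval (rest c)) (ys c)
      simp only [eval_ys, glue_rest] at h2
      exact h2.symm
    rw [h1]
    exact (transv_iff c).1 ht
  choose r hr1 hr2 using fun s => partC hGEN k hn hd c hc ht p hp hpc s
  have hpr := hp.prime
  have hnd : ∀ f : MvPolynomial (Rest n d) k, eval (rest c) f ≠ 0 → ¬ p ∣ f := by
    rintro f hf ⟨b, rfl⟩
    apply hf
    rw [map_mul, hpc, zero_mul]
  have hnot : ¬ p ∣ g * ((TM (ys c)).det * (g2 * ∏ s, r s)) := by
    intro h
    rcases hpr.dvd_or_dvd h with h | h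
    · exact hnd _ hg h
    rcases hpr.dvd_or_dvd h with h | h
    · exact hnd _ hg1 h
    rcases hpr.dvd_or_dvd h with h | h
    · exact hnd _ hg2 h
    obtain ⟨s, -, hs⟩ := (Prime.dvd_finsetProd_iff hpr _).1 h
    exact hr1 s hs
  have hprime : (Ideal.span {p} : Ideal (MvPolynomial (Rest n d) k)).IsPrime :=
    (Ideal.span_singleton_prime hp.ne_zero).2 hp.prime
  have hz : ∃ z : Rest n d → k, eval z p = 0 ∧
      eval z (g * ((TM (ys c)).det * (g2 * ∏ s, r s))) ≠ 0 := by
    by_contra hcon
    push Not at hcon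
    apply hnot
    rw [← Ideal.mem_span_singleton,
      ← IsPrime.vanishingIdeal_zeroLocus (K := k) (Ideal.span {p} : Ideal (MvPolynomial (Rest n d) k))]
    intro x hx
    have h1 := hx p (Ideal.mem_span_singleton_self p)
    exact hcon x h1
  obtain ⟨z, hzp, hzh⟩ := hz
  rw [map_mul, map_mul, map_mul, map_prod] at hzh
  have z1 := left_ne_zero_of_mul hzh
  have z2 := left_ne_zero_of_mul (right_ne_zero_of_mul hzh)
  have z3 := left_ne_zero_of_mul (right_ne_zero_of_mul (right_ne_zero_of_mul hzh))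
  have z4 := right_ne_zero_of_mul (right_ne_zero_of_mul (right_ne_zero_of_mul hzh))
  rw [Finset.prod_ne_zero_iff] at z4
  refine ⟨z, hzp, z1, hg2z z z3, ?_, ?_⟩
  · rw [transv_iff]
    have h1 : eval z (TM (ys c)).det = (TM (glue c z)).det := by
      rw [RingHom.map_det]
      congr 1
      have h2 := TM_map (eval z) (ys c)
      simp only [eval_ys] at h2
      exact h2.symm
    rw [← h1]
    exact z2
  · intro A A' hA hfix
    exact scalar_of_sel (by omega) A fun s => hr2 s z hzp (z4 s (Finset.mem_univ s)) A A' hA hfix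

end Pool.Agent.D0H65.SM
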